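import Pool.Agent.Lib.MP_565fc2_lc.SN.X5

/-!
# MP_565fc2_lc: the generic number of elementary classes among limits of hyperbolic groups with a given finite radical
-/

set_option autoImplicit false

namespace Pool.Agent.Results.MP_565fc2_lc.FixedRadical

theorem result (K : Type) [Group K] [Finite K] :
    (∃ S : Set (closure (Pool.SC.HK K)), S ∈ residual (closure (Pool.SC.HK K)) ∧
      ((fun p : closure (Pool.SC.HK K) => Pool.SC.Th p.1) '' S).encard = Pool.SC.nOut K) ∧
    ∀ S : Set (closure (Pool.SC.HK K)), S ∈ residual (closure (Pool.SC.HK K)) →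
      (Pool.SC.nOut K : ℕ∞) ≤ ((fun p : closure (Pool.SC.HK K) => Pool.SC.Th p.1) '' S).encard :=
  Pool.SC.fixed_radical K

end Pool.Agent.Results.MP_565fc2_lc.FixedRadical
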