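import Pool.Agent.Lib.MP_565fc2_lc.SC.FinT

/-!
# MP_565fc2_lc: Q1 has a positive answer if and only if some hyperbolic group is not residually finite, if and only if some
elementary class is not meagre
-/

set_option autoImplicit false

namespace Pool.Agent.Results.MP_565fc2_lc.IffNotResiduallyFinite

theorem result : List.TFAE [Pool.SC.Q1,
    ∃ p : closure Pool.SC.HH, ¬ IsMeagre {x : closure Pool.SC.HH | Pool.SC.Th (x : Pool.SC.MGrp) = Pool.SC.Th (p : Pool.SC.MGrp)},
    ∃ (G : Type) (_ : Group G), Pool.SC.WordHyp G ∧ ¬ Group.ResiduallyFinite G] :=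
  Pool.SC.q1_tfae

end Pool.Agent.Results.MP_565fc2_lc.IffNotResiduallyFinite
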