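import Pool.Agent.Lib.MP_565fc2_lc.SM.E3

/-!
# MP_565fc2_lc: Q1 has a positive answer for the hyperbolic groups which act on their finite radical by a group with a subnormal series whose
factors are linear of bounded degree (or embed in members of an equationally noetherian family)
-/

set_option autoImplicit false

namespace Pool.Agent.Results.MP_565fc2_lc.LinearAction

theorem result (n : ℕ) (F : (S : Type) → [Group S] → Prop) (hF : Pool.SC.NoethFam F) :
    ∃ S : Set (closure (Pool.SC.HA (Pool.SC.Poly fun S _ => F S ∨ Pool.SC.GLF n S))),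
      S ∈ residual (closure (Pool.SC.HA (Pool.SC.Poly fun S _ => F S ∨ Pool.SC.GLF n S))) ∧
      ((fun p : closure (Pool.SC.HA (Pool.SC.Poly fun S _ => F S ∨ Pool.SC.GLF n S)) => Pool.SC.Th p.1) '' S).Countable :=
  Pool.SC.q1_linear n hF

end Pool.Agent.Results.MP_565fc2_lc.LinearAction
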