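import Pool.Agent.Lib.MP_565fc2_lc.SN.W2

/-!
# MP_565fc2_lc: Q1 has a positive answer for every class of hyperbolic groups whose finite radicals satisfy an ascending chain condition
-/

set_option autoImplicit false

namespace Pool.Agent.Results.MP_565fc2_lc.NoetherianRadicals

theorem result (P : (K : Type) → [Group K] → Prop)
    (hiso : ∀ (K L : Type) [Group K] [Group L], Nonempty (K ≃* L) → P K → P L) (hch : ¬ Pool.SC.AscChain P) :
    ∃ S : Set (closure (Pool.SC.HP P)), S ∈ residual (closure (Pool.SC.HP P)) ∧
      ((fun p : closure (Pool.SC.HP P) => Pool.SC.Th p.1) '' S).Countable :=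
  Pool.SC.q1_noeth hiso hch

end Pool.Agent.Results.MP_565fc2_lc.NoetherianRadicals
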